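import Pool.Agent.Helper56.RZ.GoalsA

/-! Packet RZ-GTB (MP_f32c9c_an): estimate of the graph transform. -/

set_option autoImplicit false

open Set Filter Topology MeasureTheory

namespace Pool.Agent.Helper49.RZ

open Pool.Agent.Helper56.RZ

section alg

variable {K : ℕ}

theorem nm2 {a b : End K} {A B : ℝ} (ha : ‖a‖ ≤ A) (hb : ‖b‖ ≤ B) : ‖a * b‖ ≤ A * B :=
  (norm_mul_le a b).trans (mul_le_mul ha hb (norm_nonneg _) ((norm_nonneg _).trans ha))

theorem est1 {P P0 Q T D : End K} {m η : ℝ} (hTQ : T * Q = Q)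
    (hP : ‖P‖ ≤ m) (hQ : ‖Q‖ ≤ m) (hD : ‖D - T‖ ≤ η) (hPP : ‖P - P0‖ ≤ η) :
    ‖P * D * Q - P0 * Q‖ ≤ (m ^ 2 + m) * η := by
  have e : P * D * Q - P0 * Q = P * (D - T) * Q + (P - P0) * Q := by
    rw [mul_sub, sub_mul, sub_mul, mul_assoc P T Q, hTQ]
    abel
  rw [e]
  calc _ ≤ ‖P * (D - T) * Q‖ + ‖(P - P0) * Q‖ := norm_add_le _ _
    _ ≤ m * η * m + η * m := add_le_add (nm2 (nm2 hP hD) hQ) (nm2 hPP hQ)
    _ = (m ^ 2 + m) * η := by ring

theorem est2 {P Q Q0 T D : End K} {m η : ℝ} (hTQ : T * Q = Q)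
    (hP : ‖P‖ ≤ m) (hQ : ‖Q‖ ≤ m) (hD : ‖D - T‖ ≤ η) (hQQ : ‖Q - Q0‖ ≤ η) :
    ‖P * D * Q - P * Q0‖ ≤ (m ^ 2 + m) * η := by
  have e : P * D * Q - P * Q0 = P * (D - T) * Q + P * (Q - Q0) := by
    rw [mul_sub, sub_mul, mul_assoc P T Q, hTQ, mul_sub]
    abel
  rw [e]
  calc _ ≤ ‖P * (D - T) * Q‖ + ‖P * (Q - Q0)‖ := norm_add_le _ _
    _ ≤ m * η * m + m * η := add_le_add (nm2 (nm2 hP hD) hQ) (nm2 hP hQQ)
    _ = (m ^ 2 + m) * η := by ring

theorem inv_bd {E : End K} (hE : ‖E‖ ≤ 1 / 2) :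
    IsUnit (1 - E) ∧ ‖Ring.inverse (1 - E)‖ ≤ 2 := by
  have hu : IsUnit (1 - E) := isUnit_one_sub_of_norm_lt_one (lt_of_le_of_lt hE (by norm_num))
  refine ⟨hu, ?_⟩
  have h1 : Ring.inverse (1 - E) * (1 - E) = 1 := Ring.inverse_mul_cancel _ hu
  have h2 : Ring.inverse (1 - E) = 1 + Ring.inverse (1 - E) * E := by
    rw [mul_sub, mul_one] at h1
    exact sub_eq_iff_eq_add.1 h1
  have h3 : ‖(1 : End K)‖ ≤ 1 := ContinuousLinearMap.norm_id_le
  have h4 : ‖Ring.inverse (1 - E)‖ ≤ 1 + ‖Ring.inverse (1 - E)‖ * (1 / 2) := by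
    conv_lhs => rw [h2]
    calc _ ≤ ‖(1 : End K)‖ + ‖Ring.inverse (1 - E) * E‖ := norm_add_le _ _
      _ ≤ 1 + ‖Ring.inverse (1 - E)‖ * (1 / 2) := add_le_add h3 (nm2 le_rfl hE)
  linarith

/-- The constants. -/
noncomputable def M3 (m : ℝ) : ℝ := m * (m + 1) * m

noncomputable def M4 (m : ℝ) : ℝ := m * (m + 1) * (m + 1)

noncomputable def QQ (m : ℝ) : ℝ :=
  2 * M3 m + m * (1 + 2 * (1 + M3 m) * M3 m) + M4 m * (4 * M3 m ^ 2)

/-- The error term, abstractly. -/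
noncomputable def EE (Fx Fy Gy D D' s : End K) : End K :=
  Fx * D' * Gy * D * Fx - Fx * D' * Fy * D * s

/-- The inverse, abstractly. -/
noncomputable def RR (Fx Fy Gy D D' s : End K) : End K :=
  Ring.inverse (1 - EE Fx Fy Gy D D' s) * (Fx * D' * Fy)

theorem core {Fx Gx Fy Gy D D' : End K} {m e : ℝ} (hm : 1 ≤ m) (he0 : 0 ≤ e) (he1 : e ≤ 1)
    (hGG : Gy * Gy = Gy) (hFF : Fy * Fy = Fy)
    (bFx : ‖Fx‖ ≤ m) (bGx : ‖Gx‖ ≤ m) (bFy : ‖Fy‖ ≤ m) (bGy : ‖Gy‖ ≤ m)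
    (bD : ‖D‖ ≤ m + 1) (bD' : ‖D'‖ ≤ m + 1)
    (h1 : ‖Gy * D * Fx‖ ≤ e) (h2 : ‖Fy * D * Gx‖ ≤ e) (h3 : ‖Fx * D' * Gy‖ ≤ e)
    (h4 : ‖Gy * D * Gx - Gx‖ ≤ e) (h5 : ‖Fx * D' * Fy - Fx‖ ≤ e)
    (hsmall : (1 + M3 m) * e ≤ 1 / 2) :
    (∀ s : End K, Gx * s = s → ‖s‖ ≤ 1 → ‖EE Fx Fy Gy D D' s‖ ≤ 1 / 2 ∧
      ‖RR Fx Fy Gy D D' s‖ ≤ 2 * M3 m) ∧
    ∀ s s' : End K, Gx * s = s → Gx * s' = s' → s * Fx = s → s' * Fx = s' → ‖s‖ ≤ 1 → ‖s'‖ ≤ 1 →
      ‖Gy * D * (Fx + s) * RR Fx Fy Gy D D' s - Gy * D * (Fx + s') * RR Fx Fy Gy D D' s'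
        - (s - s')‖ ≤ QQ m * e * ‖s - s'‖ := by
  have hM3 : 0 ≤ M3 m := by
    rw [M3]
    positivity
  have hM4 : 0 ≤ M4 m := by
    rw [M4]
    positivity
  have bW : ‖Fx * D' * Fy‖ ≤ M3 m := nm2 (nm2 bFx bD') bFy
  have hlin : ∀ s : End K, Gx * s = s →
      Fx * D' * Fy * D * s = Fx * D' * Fy * (Fy * D * Gx) * s := by
    intro s hs
    have : Fx * D' * Fy * (Fy * D * Gx) * s = Fx * D' * (Fy * Fy) * D * (Gx * s) := by
      simp only [mul_assoc]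
    rw [this, hFF, hs]
  have hE : ∀ s : End K, Gx * s = s → ‖s‖ ≤ 1 → ‖EE Fx Fy Gy D D' s‖ ≤ (1 + M3 m) * e := by
    intro s hs hs1
    have e1 : Fx * D' * Gy * D * Fx = (Fx * D' * Gy) * (Gy * D * Fx) := by
      have : (Fx * D' * Gy) * (Gy * D * Fx) = Fx * D' * (Gy * Gy) * D * Fx := by
        simp only [mul_assoc]
      rw [this, hGG]
    rw [EE, hlin s hs, e1]
    calc _ ≤ ‖(Fx * D' * Gy) * (Gy * D * Fx)‖ + ‖Fx * D' * Fy * (Fy * D * Gx) * s‖ :=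
          norm_sub_le _ _
      _ ≤ e * e + M3 m * e * 1 := add_le_add (nm2 h3 h1) (nm2 (nm2 bW h2) hs1)
      _ ≤ (1 + M3 m) * e := by nlinarith
  have hA : ∀ s : End K, Gx * s = s → ‖s‖ ≤ 1 → ‖EE Fx Fy Gy D D' s‖ ≤ 1 / 2 ∧
      ‖RR Fx Fy Gy D D' s‖ ≤ 2 * M3 m := by
    intro s hs hs1
    have h := (hE s hs hs1).trans hsmall
    exact ⟨h, nm2 (inv_bd h).2 bW⟩
  refine ⟨hA, ?_⟩
  intro s s' hs hs' hf hf' hs1 hs1'
  set u := s - s' with hu
  have hGu : Gx * u = u := by rw [hu, mul_sub, hs, hs']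
  have huF : u * Fx = u := by rw [hu, sub_mul, hf, hf']
  set V := Ring.inverse (1 - EE Fx Fy Gy D D' s) with hV
  set V' := Ring.inverse (1 - EE Fx Fy Gy D D' s') with hV'
  obtain ⟨hEs, hRs⟩ := hA s hs hs1
  obtain ⟨hEs', hRs'⟩ := hA s' hs' hs1'
  obtain ⟨hun, hVb⟩ := inv_bd hEs
  obtain ⟨hun', hVb'⟩ := inv_bd hEs'
  have hVV : V - V' = V * (EE Fx Fy Gy D D' s - EE Fx Fy Gy D D' s') * V' := by
    have e1 : V * (1 - EE Fx Fy Gy D D' s) = 1 := Ring.inverse_mul_cancel _ hun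
    have e2 : (1 - EE Fx Fy Gy D D' s') * V' = 1 := Ring.mul_inverse_cancel _ hun'
    calc V - V' = V * ((1 - EE Fx Fy Gy D D' s') * V') - V * (1 - EE Fx Fy Gy D D' s) * V' := by
          rw [e1, e2]; simp
      _ = _ := by (simp only [mul_sub, sub_mul, mul_add, add_mul, mul_assoc, mul_one, one_mul, neg_mul, mul_neg]; abel)
  have hEE : EE Fx Fy Gy D D' s - EE Fx Fy Gy D D' s'
      = - (Fx * D' * Fy * (Fy * D * Gx) * u) := by
    rw [← hlin u hGu, EE, EE, hu]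
    (simp only [mul_sub, sub_mul, mul_add, add_mul, mul_assoc, mul_one, one_mul, neg_mul, mul_neg]; abel)
  have bEE : ‖EE Fx Fy Gy D D' s - EE Fx Fy Gy D D' s'‖ ≤ M3 m * e * ‖u‖ := by
    rw [hEE, norm_neg]
    exact nm2 (nm2 bW h2) le_rfl
  have hRR : RR Fx Fy Gy D D' s - RR Fx Fy Gy D D' s' = (V - V') * (Fx * D' * Fy) := by
    rw [RR, RR, sub_mul]
  have bRR : ‖RR Fx Fy Gy D D' s - RR Fx Fy Gy D D' s'‖ ≤ 2 * (M3 m * e * ‖u‖) * 2 * M3 m := by
    rw [hRR, hVV]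
    exact nm2 (nm2 (nm2 hVb bEE) hVb') bW
  have hRF : RR Fx Fy Gy D D' s - Fx = (Fx * D' * Fy - Fx)
      + V * EE Fx Fy Gy D D' s * (Fx * D' * Fy) := by
    have e1 : V * (1 - EE Fx Fy Gy D D' s) = 1 := Ring.inverse_mul_cancel _ hun
    have e2 : V = 1 + V * EE Fx Fy Gy D D' s := by
      rw [mul_sub, mul_one] at e1
      exact sub_eq_iff_eq_add.1 e1
    have e3 : RR Fx Fy Gy D D' s = V * (Fx * D' * Fy) := rfl
    rw [e3]
    conv_lhs => rw [e2]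
    (simp only [mul_sub, sub_mul, mul_add, add_mul, mul_assoc, mul_one, one_mul, neg_mul, mul_neg]; abel)
  have bRF : ‖RR Fx Fy Gy D D' s - Fx‖ ≤ (1 + 2 * (1 + M3 m) * M3 m) * e := by
    rw [hRF]
    calc _ ≤ ‖Fx * D' * Fy - Fx‖ + ‖V * EE Fx Fy Gy D D' s * (Fx * D' * Fy)‖ := norm_add_le _ _
      _ ≤ e + 2 * ((1 + M3 m) * e) * M3 m :=
          add_le_add h5 (nm2 (nm2 hVb (hE s hs hs1)) bW)
      _ = _ := by ring
  have bFs : ‖Fx + s'‖ ≤ m + 1 := (norm_add_le _ _).trans (add_le_add bFx hs1')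
  have bb : ‖Gy * D * (Fx + s')‖ ≤ M4 m := nm2 (nm2 bGy bD) bFs
  have key : Gy * D * (Fx + s) * RR Fx Fy Gy D D' s - Gy * D * (Fx + s') * RR Fx Fy Gy D D' s' - u
      = (Gy * D * Gx - Gx) * u * RR Fx Fy Gy D D' s + Gx * u * (RR Fx Fy Gy D D' s - Fx)
        + Gy * D * (Fx + s') * (RR Fx Fy Gy D D' s - RR Fx Fy Gy D D' s') := by
    have e1 : (Gy * D * Gx - Gx) * u = Gy * D * u - u := by
      rw [sub_mul, mul_assoc (Gy * D) Gx u, hGu]
    have e2 : Gx * u * (RR Fx Fy Gy D D' s - Fx) = u * RR Fx Fy Gy D D' s - u := by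
      rw [hGu, mul_sub, huF]
    rw [e1, e2, hu]
    (simp only [mul_sub, sub_mul, mul_add, add_mul, mul_assoc, mul_one, one_mul, neg_mul, mul_neg]; abel)
  rw [key]
  calc _ ≤ ‖(Gy * D * Gx - Gx) * u * RR Fx Fy Gy D D' s‖ + ‖Gx * u * (RR Fx Fy Gy D D' s - Fx)‖
        + ‖Gy * D * (Fx + s') * (RR Fx Fy Gy D D' s - RR Fx Fy Gy D D' s')‖ := norm_add₃_le
    _ ≤ e * ‖u‖ * (2 * M3 m) + m * ‖u‖ * ((1 + 2 * (1 + M3 m) * M3 m) * e)
        + M4 m * (2 * (M3 m * e * ‖u‖) * 2 * M3 m) := by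
          gcongr
          · exact nm2 (nm2 h4 le_rfl) hRs
          · exact nm2 (nm2 bGx le_rfl) bRF
          · exact nm2 bb bRR
    _ = QQ m * e * ‖u‖ := by
          rw [QQ]
          ring

end alg

theorem pair_rel {X : Type} [TopologicalSpace X] {K : ℕ} {C : Coc X K} {F G : X → End K}
    (h : Pair C F G) (x : X) : C.T x * F x = F x ∧ C.T x * G x = G x := by
  rw [← h.sum x, add_mul, add_mul, h.FF, h.GF, h.FG, h.GG, add_zero, zero_add]
  exact ⟨rfl, rfl⟩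

theorem exists_bd {X : Type} [MetricSpace X] [CompactSpace X] {K : ℕ} {f : X → End K}
    (hf : Continuous f) : ∃ m : ℝ, ∀ x, ‖f x‖ ≤ m := by
  obtain ⟨m, hm⟩ := isCompact_univ.exists_bound_of_continuousOn (f := f) hf.continuousOn
  exact ⟨m, fun x => hm x (mem_univ x)⟩

theorem exists_uc {X : Type} [MetricSpace X] [CompactSpace X] {K : ℕ} {f : X → End K}
    (hf : Continuous f) {η : ℝ} (hη : 0 < η) :
    ∃ δ : ℝ, 0 < δ ∧ ∀ x y, dist y x ≤ δ → ‖f y - f x‖ ≤ η := by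
  have h := CompactSpace.uniformContinuous_of_continuous hf
  rw [Metric.uniformContinuous_iff] at h
  obtain ⟨δ, hδ, h⟩ := h η hη
  refine ⟨δ / 2, half_pos hδ, fun x y hxy => ?_⟩
  rw [← dist_eq_norm]
  exact (h (lt_of_le_of_lt hxy (half_lt_self hδ))).le

theorem nu_uc {X : Type} [MetricSpace X] [CompactSpace X] {K : ℕ} {C : Coc X K}
    {F G : X → End K} {nu : X → End K → ℝ} {c l : ℝ} (hA : Adapt C F G nu c l) {η : ℝ}
    (hη : 0 < η) : ∃ δ : ℝ, 0 < δ ∧ ∀ x y, dist y x ≤ δ → ∀ u : End K,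
      nu y u ≤ nu x u + η * ‖u‖ := by
  haveI : ProperSpace (End K) := FiniteDimensional.proper ℝ (End K)
  have hS : IsCompact ((univ : Set X) ×ˢ Metric.closedBall (0 : End K) 1) :=
    isCompact_univ.prod (isCompact_closedBall _ _)
  have h := hS.uniformContinuousOn_of_continuous hA.cont.continuousOn
  rw [Metric.uniformContinuousOn_iff] at h
  obtain ⟨δ, hδ, h⟩ := h η hη
  refine ⟨δ / 2, half_pos hδ, fun x y hxy u => ?_⟩
  by_cases hu : u = 0
  · have h0 : ∀ z, nu z 0 = 0 := fun z => by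
      have := hA.smul z (0 : ℝ) (0 : End K)
      rw [zero_smul ℝ (0 : End K), abs_zero, zero_mul] at this
      exact this
    rw [hu, h0, h0, norm_zero, mul_zero, add_zero]
  · have hn : 0 < ‖u‖ := norm_pos_iff.2 hu
    set v : End K := (‖u‖)⁻¹ • u with hv
    have hv1 : ‖v‖ = 1 := by
      rw [hv, norm_smul, norm_inv, norm_norm, inv_mul_cancel₀ hn.ne']
    have hmem : ∀ z : X, (z, v) ∈ (univ : Set X) ×ˢ Metric.closedBall (0 : End K) 1 := fun z => by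
      refine ⟨mem_univ _, ?_⟩
      rw [mem_closedBall_zero_iff]
      exact hv1.le
    have h1 := h (y, v) (hmem y) (x, v) (hmem x) (by
      rw [Prod.dist_eq, dist_self, max_eq_left dist_nonneg]
      exact lt_of_le_of_lt hxy (half_lt_self hδ))
    rw [Real.dist_eq] at h1
    have h2 : nu y v ≤ nu x v + η := by
      have := (abs_lt.1 h1).2
      linarith
    have h3 : ∀ z, nu z u = ‖u‖ * nu z v := fun z => by
      have : u = ‖u‖ • v := by
        rw [hv, smul_smul, mul_inv_cancel₀ hn.ne', one_smul]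
      conv_lhs => rw [this]
      rw [hA.smul, abs_of_pos hn]
    rw [h3, h3]
    nlinarith

theorem gtb : Pool.Agent.Helper56.RZ.StmtGTB := by
  intro X _ _ K C F G nu c l hP hA
  obtain ⟨mF, hmF⟩ := exists_bd hP.contF
  obtain ⟨mG, hmG⟩ := exists_bd hP.contG
  obtain ⟨mT, hmT⟩ := exists_bd C.contT
  set m : ℝ := max 1 (max mF (max mG mT)) with hm
  have hm1 : 1 ≤ m := le_max_left _ _
  have bF : ∀ x, ‖F x‖ ≤ m := fun x => (hmF x).trans ((le_max_left _ _).trans (le_max_right _ _))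
  have bG : ∀ x, ‖G x‖ ≤ m := fun x => (hmG x).trans
    ((le_max_left _ _).trans ((le_max_right _ _).trans (le_max_right _ _)))
  have bT : ∀ x, ‖C.T x‖ ≤ m := fun x => (hmT x).trans
    ((le_max_right _ _).trans ((le_max_right _ _).trans (le_max_right _ _)))
  have hM3 : 0 ≤ M3 m := by
    rw [M3]
    positivity
  have hM4 : 0 ≤ M4 m := by
    rw [M4]
    positivity
  have hQQ : 0 ≤ QQ m := by
    rw [QQ]
    positivity
  have hl0 := hA.lpos
  have hl1 := hA.l1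
  set N : ℝ := m ^ 2 + m with hN
  have hN0 : 0 < N := by
    rw [hN]
    positivity
  set Z : ℝ := 1 + N * (2 * (1 + M3 m)) + N * |c| * QQ m with hZ
  have hZ0 : 0 < Z := by
    rw [hZ]
    positivity
  set η : ℝ := ((1 - l) / 2) / Z with hη
  have hη0 : 0 < η := by
    rw [hη]
    apply div_pos _ hZ0
    linarith
  have hηZ : η * Z = (1 - l) / 2 := by
    rw [hη]
    field_simp
  have hterm1 : 0 ≤ η * (N * (2 * (1 + M3 m))) := by positivity
  have hterm2 : 0 ≤ η * (N * |c| * QQ m) := by positivity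
  have hexp : η + η * (N * (2 * (1 + M3 m))) + η * (N * |c| * QQ m) = (1 - l) / 2 := by
    rw [← hηZ, hZ]
    ring
  set e : ℝ := N * η with he
  have he0 : 0 ≤ e := by positivity
  have hsm : (1 + M3 m) * e ≤ 1 / 2 := by
    have : (1 + M3 m) * e = (η * (N * (2 * (1 + M3 m)))) / 2 := by
      rw [he]
      ring
    rw [this]
    linarith
  have he1 : e ≤ 1 := by nlinarith
  obtain ⟨δF, hδF, hF⟩ := exists_uc hP.contF hη0
  obtain ⟨δG, hδG, hG⟩ := exists_uc hP.contG hη0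
  obtain ⟨δn, hδn, hn⟩ := nu_uc hA hη0
  refine ⟨min η (min δF (min δG δn)), max 1 (|c| * (2 * M3 m)), (l + 1) / 2,
    lt_min hη0 (lt_min hδF (lt_min hδG hδn)), le_max_left _ _, by linarith, by linarith,
    by linarith, ?_⟩
  intro H hHT hNear
  have all : ∀ x, (‖G (H.f x) * H.A x * F x‖ ≤ e ∧ ‖F (H.f x) * H.A x * G x‖ ≤ e ∧
      ‖F x * H.B (H.f x) * G (H.f x)‖ ≤ e ∧ ‖G (H.f x) * H.A x * G x - G x‖ ≤ e ∧
      ‖F x * H.B (H.f x) * F (H.f x) - F x‖ ≤ e) ∧ ‖H.A x‖ ≤ m + 1 ∧ ‖H.B (H.f x)‖ ≤ m + 1 := by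
    intro x
    obtain ⟨n1, n2, n3⟩ := hNear x
    obtain ⟨k1, k2, k3⟩ := hNear (H.f x)
    have hd1 : min η (min δF (min δG δn)) ≤ η := min_le_left _ _
    have hd2 : min η (min δF (min δG δn)) ≤ δF := (min_le_right _ _).trans (min_le_left _ _)
    have hd3 : min η (min δF (min δG δn)) ≤ δG :=
      (min_le_right _ _).trans ((min_le_right _ _).trans (min_le_left _ _))
    have a1 : ‖H.A x - C.T x‖ ≤ η := by
      rw [← hHT]
      exact n2.trans hd1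
    have a2 : ‖H.B (H.f x) - C.T (H.f x)‖ ≤ η := by
      rw [← hHT]
      exact k3.trans hd1
    have a3 : ‖F (H.f x) - F x‖ ≤ η := hF _ _ (n1.trans hd2)
    have a4 : ‖G (H.f x) - G x‖ ≤ η := hG _ _ (n1.trans hd3)
    obtain ⟨t1, t2⟩ := pair_rel hP x
    obtain ⟨t3, t4⟩ := pair_rel hP (H.f x)
    have hη1 : η ≤ 1 := by linarith
    refine ⟨⟨?_, ?_, ?_, ?_, ?_⟩, ?_, ?_⟩
    · have := est1 (P0 := G x) t1 (bG (H.f x)) (bF x) a1 a4
      rwa [hP.GF, sub_zero] at this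
    · have := est1 (P0 := F x) t2 (bF (H.f x)) (bG x) a1 a3
      rwa [hP.FG, sub_zero] at this
    · have := est2 (Q0 := G x) t4 (bF x) (bG (H.f x)) a2 a4
      rwa [hP.FG, sub_zero] at this
    · have := est1 (P0 := G x) t2 (bG (H.f x)) (bG x) a1 a4
      rwa [hP.GG] at this
    · have := est2 (Q0 := F x) t3 (bF x) (bF (H.f x)) a2 a3
      rwa [hP.FF] at this
    · calc ‖H.A x‖ = ‖C.T x + (H.A x - C.T x)‖ := by rw [add_sub_cancel]
        _ ≤ ‖C.T x‖ + ‖H.A x - C.T x‖ := norm_add_le _ _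
        _ ≤ m + 1 := add_le_add (bT x) (a1.trans hη1)
    · calc ‖H.B (H.f x)‖ = ‖C.T (H.f x) + (H.B (H.f x) - C.T (H.f x))‖ := by
            rw [add_sub_cancel]
        _ ≤ ‖C.T (H.f x)‖ + ‖H.B (H.f x) - C.T (H.f x)‖ := norm_add_le _ _
        _ ≤ m + 1 := add_le_add (bT _) (a2.trans hη1)
  refine ⟨fun x => (all x).1.1.trans he1, ?_⟩
  intro x s s' hs hs' hs1 hs1'
  obtain ⟨⟨h1, h2, h3, h4, h5⟩, bD, bD'⟩ := all x
  obtain ⟨core1, core2⟩ := core hm1 he0 he1 (hP.GG (H.f x)) (hP.FF (H.f x)) (bF x) (bG x)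
    (bF (H.f x)) (bG (H.f x)) bD bD' h1 h2 h3 h4 h5 hsm
  have fix : ∀ r : End K, G x * r * F x = r → G x * r = r ∧ r * F x = r := by
    intro r hr
    constructor
    · conv_rhs => rw [← hr]
      conv_lhs => rw [← hr]
      rw [← mul_assoc, ← mul_assoc, hP.GG]
    · conv_rhs => rw [← hr]
      conv_lhs => rw [← hr]
      rw [mul_assoc, hP.FF]
  obtain ⟨g1, f1⟩ := fix s hs
  obtain ⟨g2, f2⟩ := fix s' hs'
  have hRF : ∀ r : End K, RR (F x) (F (H.f x)) (G (H.f x)) (H.A x) (H.B (H.f x)) r * F (H.f x)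
      = RR (F x) (F (H.f x)) (G (H.f x)) (H.A x) (H.B (H.f x)) r := by
    intro r
    rw [RR]
    simp only [mul_assoc]
    rw [hP.FF]
  have hgt : ∀ r : End K, gt C H F G x r = C.A (H.f x) * (G (H.f x) * H.A x * (F x + r) *
      RR (F x) (F (H.f x)) (G (H.f x)) (H.A x) (H.B (H.f x)) r) * C.B (C.f (H.f x)) := by
    intro r
    have : gt C H F G x r = C.A (H.f x) * (G (H.f x) * H.A x * (F x + r)) *
      RR (F x) (F (H.f x)) (G (H.f x)) (H.A x) (H.B (H.f x)) r * C.B (C.f (H.f x)) := rfl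
    rw [this]
    simp only [mul_assoc]
  have hsig : ∀ r : End K, G (H.f x) * (G (H.f x) * H.A x * (F x + r) *
      RR (F x) (F (H.f x)) (G (H.f x)) (H.A x) (H.B (H.f x)) r) * F (H.f x)
      = G (H.f x) * H.A x * (F x + r) *
      RR (F x) (F (H.f x)) (G (H.f x)) (H.A x) (H.B (H.f x)) r := by
    intro r
    have e1 : G (H.f x) * (G (H.f x) * H.A x * (F x + r) *
      RR (F x) (F (H.f x)) (G (H.f x)) (H.A x) (H.B (H.f x)) r) * F (H.f x)
      = (G (H.f x) * G (H.f x)) * H.A x * (F x + r) *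
      (RR (F x) (F (H.f x)) (G (H.f x)) (H.A x) (H.B (H.f x)) r * F (H.f x)) := by
      simp only [mul_assoc]
    rw [e1, hP.GG, hRF]
  refine ⟨(core1 s g1 hs1).1, ?_, ?_⟩
  · set σ := G (H.f x) * H.A x * (F x + s) *
      RR (F x) (F (H.f x)) (G (H.f x)) (H.A x) (H.B (H.f x)) s - G (H.f x) * H.A x * (F x + s') *
      RR (F x) (F (H.f x)) (G (H.f x)) (H.A x) (H.B (H.f x)) s' with hσ
    have e1 : gt C H F G x s - gt C H F G x s' = C.A (H.f x) * σ * C.B (C.f (H.f x)) := by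
      rw [hgt, hgt, hσ, mul_sub, sub_mul]
    have e2 : G (H.f x) * σ * F (H.f x) = σ := by
      rw [hσ, mul_sub, sub_mul, hsig, hsig]
    rw [e1]
    have b1 := hA.step (H.f x) σ e2
    have b2 : nu (H.f x) σ ≤ nu (H.f x) (s - s') + nu (H.f x) (σ - (s - s')) := by
      have := hA.add (H.f x) (s - s') (σ - (s - s'))
      rwa [add_sub_cancel] at this
    have b3 : nu (H.f x) (σ - (s - s')) ≤ |c| * (QQ m * e * ‖s - s'‖) := by
      refine (hA.upper _ _).trans ?_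
      calc c * ‖σ - (s - s')‖ ≤ |c| * ‖σ - (s - s')‖ :=
            mul_le_mul_of_nonneg_right (le_abs_self c) (norm_nonneg _)
        _ ≤ _ := mul_le_mul_of_nonneg_left (core2 s s' g1 g2 f1 f2 hs1 hs1') (abs_nonneg c)
    have hd4 : min η (min δF (min δG δn)) ≤ δn :=
      (min_le_right _ _).trans ((min_le_right _ _).trans (min_le_right _ _))
    have b4 := hn x (H.f x) ((hNear x).1.trans hd4) (s - s')
    have b5 : ‖s - s'‖ ≤ nu x (s - s') := by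
      apply hA.lower
      rw [mul_sub, sub_mul, hs, hs']
    have b6 : 0 ≤ nu x (s - s') := (norm_nonneg _).trans b5
    have hθ : η + |c| * (QQ m * e) ≤ (1 - l) / 2 := by
      have : |c| * (QQ m * e) = η * (N * |c| * QQ m) := by
        rw [he]
        ring
      rw [this]
      linarith
    have hθ0 : 0 ≤ η + |c| * (QQ m * e) := by positivity
    have b7 : nu (H.f x) σ ≤ (1 + (η + |c| * (QQ m * e))) * nu x (s - s') := by
      have : (η + |c| * (QQ m * e)) * ‖s - s'‖ ≤ (η + |c| * (QQ m * e)) * nu x (s - s') :=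
        mul_le_mul_of_nonneg_left b5 hθ0
      have e3 : |c| * (QQ m * e * ‖s - s'‖) = |c| * (QQ m * e) * ‖s - s'‖ := by ring
      rw [e3] at b3
      linarith
    calc _ ≤ l * nu (H.f x) σ := b1
      _ ≤ l * ((1 + (η + |c| * (QQ m * e))) * nu x (s - s')) :=
          mul_le_mul_of_nonneg_left b7 hl0.le
      _ = (l * (1 + (η + |c| * (QQ m * e)))) * nu x (s - s') := by ring
      _ ≤ (l + 1) / 2 * nu x (s - s') := by
          apply mul_le_mul_of_nonneg_right _ b6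
          nlinarith
  · have z1 : G x * (0 : End K) = 0 := mul_zero _
    have bR := (core1 0 z1 (by rw [norm_zero]; norm_num)).2
    rw [hgt]
    have b1 := hA.step (H.f x) _ (hsig 0)
    refine b1.trans ?_
    have b2 := hA.upper (H.f x) (G (H.f x) * H.A x * (F x + 0) *
      RR (F x) (F (H.f x)) (G (H.f x)) (H.A x) (H.B (H.f x)) 0)
    rw [add_zero] at b2 ⊢
    have b3 : ‖G (H.f x) * H.A x * F x *
      RR (F x) (F (H.f x)) (G (H.f x)) (H.A x) (H.B (H.f x)) 0‖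
        ≤ ‖G (H.f x) * H.A x * F x‖ * (2 * M3 m) := nm2 le_rfl bR
    have b4 : c * ‖G (H.f x) * H.A x * F x *
      RR (F x) (F (H.f x)) (G (H.f x)) (H.A x) (H.B (H.f x)) 0‖
        ≤ |c| * (‖G (H.f x) * H.A x * F x‖ * (2 * M3 m)) :=
      (mul_le_mul_of_nonneg_right (le_abs_self c) (norm_nonneg _)).trans
        (mul_le_mul_of_nonneg_left b3 (abs_nonneg c))
    have b5 : 0 ≤ |c| * (‖G (H.f x) * H.A x * F x‖ * (2 * M3 m)) := by positivity
    calc _ ≤ l * (|c| * (‖G (H.f x) * H.A x * F x‖ * (2 * M3 m))) :=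
          mul_le_mul_of_nonneg_left (b2.trans b4) hl0.le
      _ ≤ 1 * (|c| * (‖G (H.f x) * H.A x * F x‖ * (2 * M3 m))) :=
          mul_le_mul_of_nonneg_right hl1.le b5
      _ = (|c| * (2 * M3 m)) * ‖G (H.f x) * H.A x * F x‖ := by ring
      _ ≤ _ := mul_le_mul_of_nonneg_right (le_max_right _ _) (norm_nonneg _)

end Pool.Agent.Helper49.RZ
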