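import Pool.Agent.Helper56.RZ.GoalsD

/-!
Project RZ, third theorem: packet CB (coefficients).
-/

set_option autoImplicit false

namespace Pool.Agent.Helper49.RZ

open Pool.Agent.Helper56.RZ

/-- solution of the Vandermonde system -/
theorem exists_coeff (m : ℕ) : ∃ a : ℕ → ℝ,
    (∀ k < m, ∑ i ∈ Finset.range (m + 1), a i * 2 ^ (i * k) = 0) ∧
      ∑ i ∈ Finset.range (m + 1), a i * (1 / 4) ^ i = 1 := by
  set v : Fin (m + 1) → ℝ := fun k => if (k : ℕ) < m then 2 ^ (k : ℕ) else 1 / 4 with hv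
  set b : Fin (m + 1) → ℝ := fun k => if (k : ℕ) < m then 0 else 1 with hb
  have hinj : Function.Injective v := by
    have hone : ∀ k : ℕ, (1 : ℝ) ≤ 2 ^ k := fun k => one_le_pow₀ (by norm_num)
    intro k k' hkk
    simp only [hv] at hkk
    ext
    by_cases h1 : (k : ℕ) < m
    · by_cases h2 : (k' : ℕ) < m
      · rw [if_pos h1, if_pos h2] at hkk
        exact pow_right_injective₀ (by norm_num) (by norm_num) hkk
      · rw [if_pos h1, if_neg h2] at hkk
        have := hone k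
        linarith
    · by_cases h2 : (k' : ℕ) < m
      · rw [if_neg h1, if_pos h2] at hkk
        have := hone k'
        linarith
      · have h3 := k.2
        have h4 := k'.2
        omega
  have hdet : IsUnit (Matrix.vandermonde v).det :=
    isUnit_iff_ne_zero.2 (Matrix.det_vandermonde_ne_zero_iff.2 hinj)
  set a' : Fin (m + 1) → ℝ := Matrix.mulVec (Matrix.vandermonde v)⁻¹ b with ha'
  have hsol : Matrix.mulVec (Matrix.vandermonde v) a' = b := by
    rw [ha', Matrix.mulVec_mulVec, Matrix.mul_nonsing_inv _ hdet, Matrix.one_mulVec]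
  have hsum : ∀ y : ℝ, ∑ i ∈ Finset.range (m + 1), (if h : i < m + 1 then a' ⟨i, h⟩ else 0) * y ^ i
      = ∑ i : Fin (m + 1), a' i * y ^ (i : ℕ) := by
    intro y
    rw [Finset.sum_range]
    refine Finset.sum_congr rfl fun i _ => ?_
    rw [dif_pos i.2]
  refine ⟨fun i => if h : i < m + 1 then a' ⟨i, h⟩ else 0, ?_, ?_⟩
  · intro k hk
    have h1 := congrFun hsol ⟨k, by omega⟩
    rw [Matrix.mulVec, dotProduct] at h1
    simp only [Matrix.vandermonde_apply, hv, hb, hk, if_true] at h1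
    have h2 := hsum (2 ^ k)
    have h3 : ∑ i : Fin (m + 1), a' i * ((2 : ℝ) ^ k) ^ (i : ℕ) = 0 := by
      refine Eq.trans ?_ h1
      exact Finset.sum_congr rfl fun i _ => mul_comm _ _
    rw [h3] at h2
    refine Eq.trans ?_ h2
    refine Finset.sum_congr rfl fun i _ => ?_
    rw [← pow_mul, mul_comm k i]
  · have h1 := congrFun hsol ⟨m, by omega⟩
    rw [Matrix.mulVec, dotProduct] at h1
    simp only [Matrix.vandermonde_apply, hv, hb, lt_irrefl, if_false] at h1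
    have h2 := hsum (1 / 4)
    have h3 : ∑ i : Fin (m + 1), a' i * ((1 : ℝ) / 4) ^ (i : ℕ) = 1 := by
      refine Eq.trans ?_ h1
      exact Finset.sum_congr rfl fun i _ => mul_comm _ _
    rw [h3] at h2
    exact h2

theorem cb : StmtCB := by
  intro m _
  obtain ⟨a, ha1, ha2⟩ := exists_coeff m
  refine ⟨a, ∑ i ∈ Finset.range (m + 1), |a i| * 2 ^ (i * m),
    Finset.sum_nonneg fun i _ => by positivity, ?_⟩
  intro h α β γ B t0 hB hβ hexp ρ t hρ hρ1 ht htt
  -- the polynomial part cancels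
  have hpoly : ∑ i ∈ Finset.range (m + 1), a i *
      ∑ j ∈ Finset.range m, (2 ^ i * ρ) ^ j * (α j + t / 2 ^ i * β j) = 0 := by
    simp only [Finset.mul_sum]
    rw [Finset.sum_comm]
    refine Finset.sum_eq_zero fun j hj => ?_
    rw [Finset.mem_range] at hj
    have h1 : ∀ i ∈ Finset.range (m + 1), a i * ((2 ^ i * ρ) ^ j * (α j + t / 2 ^ i * β j)) =
        ρ ^ j * α j * (a i * 2 ^ (i * j)) + ρ ^ j * t * (a i * (2 ^ (i * j) / 2 ^ i * β j)) := by
      intro i _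
      rw [mul_pow, ← pow_mul]
      ring
    rw [Finset.sum_congr rfl h1, Finset.sum_add_distrib, ← Finset.mul_sum, ← Finset.mul_sum,
      ha1 j hj, mul_zero, zero_add]
    have h2 : ∑ i ∈ Finset.range (m + 1), a i * (2 ^ (i * j) / 2 ^ i * β j) = 0 := by
      rcases Nat.eq_zero_or_pos j with hj0 | hj0
      · subst hj0
        simp [hβ]
      · have h3 : ∀ i ∈ Finset.range (m + 1), a i * (2 ^ (i * j) / 2 ^ i * β j) =
            β j * (a i * 2 ^ (i * (j - 1))) := by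
          intro i _
          have h4 : (2 : ℝ) ^ (i * j) = 2 ^ (i * (j - 1)) * 2 ^ i := by
            rw [← pow_add]
            congr 1
            obtain ⟨l, rfl⟩ : ∃ l, j = l + 1 := ⟨j - 1, by omega⟩
            rw [Nat.add_sub_cancel]
            ring
          rw [h4, mul_div_assoc, div_self (by positivity)]
          ring
        rw [Finset.sum_congr rfl h3, ← Finset.mul_sum, ha1 (j - 1) (by omega), mul_zero]
    rw [h2, mul_zero]
  have hquad : ∑ i ∈ Finset.range (m + 1), a i * (γ * (t / 2 ^ i) ^ 2) = γ * t ^ 2 := by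
    have h1 : ∀ i ∈ Finset.range (m + 1), a i * (γ * (t / 2 ^ i) ^ 2) =
        γ * t ^ 2 * (a i * (1 / 4) ^ i) := by
      intro i _
      have h2 : ((2 : ℝ) ^ i) ^ 2 = 4 ^ i := by
        rw [← pow_mul, mul_comm, pow_mul]
        norm_num
      rw [div_pow, h2, one_div, inv_pow]
      ring
    rw [Finset.sum_congr rfl h1, ← Finset.mul_sum, ha2, mul_one]
  have hkey : ∑ i ∈ Finset.range (m + 1), a i * h (2 ^ i * ρ) (t / 2 ^ i) - γ * t ^ 2 =
      ∑ i ∈ Finset.range (m + 1), a i * (h (2 ^ i * ρ) (t / 2 ^ i)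
        - ∑ j ∈ Finset.range m, (2 ^ i * ρ) ^ j * (α j + t / 2 ^ i * β j)
        - γ * (t / 2 ^ i) ^ 2) := by
    simp only [mul_sub, Finset.sum_sub_distrib]
    rw [hpoly, hquad, sub_zero]
  rw [hkey]
  refine (Finset.abs_sum_le_sum_abs _ _).trans ?_
  rw [Finset.sum_mul, Finset.sum_mul]
  refine Finset.sum_le_sum fun i hi => ?_
  rw [Finset.mem_range] at hi
  rw [abs_mul]
  have h2i : (1 : ℝ) ≤ 2 ^ i := one_le_pow₀ (by norm_num)
  have him : (2 : ℝ) ^ i ≤ 2 ^ m := pow_le_pow_right₀ (by norm_num) (by omega)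
  have hti0 : 0 ≤ t / 2 ^ i := by positivity
  have hti : t / 2 ^ i ≤ t := div_le_self ht h2i
  have h1 := hexp (2 ^ i * ρ) (t / 2 ^ i) (by positivity)
    ((mul_le_mul_of_nonneg_right him hρ).trans hρ1) hti0 (hti.trans htt)
  have h3 : (1 : ℝ) ≤ 2 ^ (i * m) := one_le_pow₀ (by norm_num)
  have e1 : (2 ^ i * ρ) ^ m = 2 ^ (i * m) * ρ ^ m := by rw [mul_pow, ← pow_mul]
  have e2 : 2 ^ i * ρ * (t / 2 ^ i) ^ 2 ≤ 2 ^ (i * m) * (ρ * t ^ 2) := by
    have e3 : 2 ^ i * ρ * (t / 2 ^ i) ^ 2 = ρ * t * (t / 2 ^ i) := by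
      field_simp
    rw [e3]
    calc ρ * t * (t / 2 ^ i) ≤ ρ * t * t := by gcongr
      _ = 1 * (ρ * t ^ 2) := by ring
      _ ≤ 2 ^ (i * m) * (ρ * t ^ 2) := by gcongr
  have e4 : (t / 2 ^ i) ^ 3 ≤ 2 ^ (i * m) * t ^ 3 := by
    calc (t / 2 ^ i) ^ 3 ≤ t ^ 3 := by gcongr
      _ = 1 * t ^ 3 := by ring
      _ ≤ 2 ^ (i * m) * t ^ 3 := by gcongr
  have h5 : B * ((2 ^ i * ρ) ^ m + 2 ^ i * ρ * (t / 2 ^ i) ^ 2 + (t / 2 ^ i) ^ 3) ≤
      B * (2 ^ (i * m) * (ρ ^ m + ρ * t ^ 2 + t ^ 3)) := by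
    refine mul_le_mul_of_nonneg_left ?_ hB
    rw [e1]
    calc 2 ^ (i * m) * ρ ^ m + 2 ^ i * ρ * (t / 2 ^ i) ^ 2 + (t / 2 ^ i) ^ 3
        ≤ 2 ^ (i * m) * ρ ^ m + 2 ^ (i * m) * (ρ * t ^ 2) + 2 ^ (i * m) * t ^ 3 := by
          linarith
      _ = 2 ^ (i * m) * (ρ ^ m + ρ * t ^ 2 + t ^ 3) := by ring
  calc |a i| * |h (2 ^ i * ρ) (t / 2 ^ i)
        - ∑ j ∈ Finset.range m, (2 ^ i * ρ) ^ j * (α j + t / 2 ^ i * β j)
        - γ * (t / 2 ^ i) ^ 2|
      ≤ |a i| * (B * (2 ^ (i * m) * (ρ ^ m + ρ * t ^ 2 + t ^ 3))) :=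
        mul_le_mul_of_nonneg_left (h1.trans h5) (abs_nonneg _)
    _ = |a i| * 2 ^ (i * m) * B * (ρ ^ m + ρ * t ^ 2 + t ^ 3) := by ring

end Pool.Agent.Helper49.RZ
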