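import Pool.Agent.Helper57.RZ.T1
import Pool.Agent.Helper56.RZ.GoalsC

/-!
# RZ2-LZ: the derivative of a `C^2` map of `M` is Lipschitz
-/

set_option autoImplicit false

open Set Filter Topology

open scoped ContDiff NNReal

namespace Pool.Agent.Helper49.RZ

open Pool.Agent.Helper56.RZ

/-- orthogonal projections are controlled by arbitrary projections onto the same subspaces -/
theorem proj_sub_le {K : ℕ} (U U' : Submodule ℝ (E K)) (Q Q' : End K)
    (h1 : Q * U.starProjection = U.starProjection) (h2 : U.starProjection * Q = Q)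
    (h1' : Q' * U'.starProjection = U'.starProjection) (h2' : U'.starProjection * Q' = Q') :
    ‖U.starProjection - U'.starProjection‖ ≤ 2 * ‖Q - Q'‖ := by
  have key : ∀ (U U' : Submodule ℝ (E K)) (Q Q' : End K),
      Q * U.starProjection = U.starProjection → U'.starProjection * Q' = Q' →
      ‖(1 - U'.starProjection) * U.starProjection‖ ≤ ‖Q - Q'‖ := by
    intro U U' Q Q' h1 h2'
    have e1 : (1 - U'.starProjection) * U.starProjection =
        (1 - U'.starProjection) * ((Q - Q') * U.starProjection) := by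
      have e2 : (1 - U'.starProjection) * Q' = 0 := by rw [sub_mul, one_mul, h2', sub_self]
      rw [sub_mul Q, mul_sub, ← mul_assoc _ Q' _, e2, zero_mul, sub_zero, h1]
    have n1 : ‖(1 : End K) - U'.starProjection‖ ≤ 1 := by
      rw [← Submodule.starProjection_orthogonal']
      exact Submodule.starProjection_norm_le _
    have n2 : ‖U.starProjection‖ ≤ 1 := Submodule.starProjection_norm_le _
    rw [e1]
    calc ‖(1 - U'.starProjection) * ((Q - Q') * U.starProjection)‖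
        ≤ ‖(1 : End K) - U'.starProjection‖ * (‖Q - Q'‖ * ‖U.starProjection‖) :=
          (norm_mul_le _ _).trans (mul_le_mul_of_nonneg_left (norm_mul_le _ _) (norm_nonneg _))
      _ ≤ 1 * (‖Q - Q'‖ * 1) := by gcongr
      _ = ‖Q - Q'‖ := by ring
  have a1 := key U U' Q Q' h1 h2'
  have a2 := key U' U Q' Q h1' h2
  have s1 : star U.starProjection = U.starProjection := isSelfAdjoint_starProjection U
  have s2 : star U'.starProjection = U'.starProjection := isSelfAdjoint_starProjection U'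
  have a3 : ‖U.starProjection * (1 - U'.starProjection)‖ ≤ ‖Q - Q'‖ := by
    rw [← norm_star, star_mul, star_sub, star_one, s1, s2]
    exact a1
  have e3 : U.starProjection - U'.starProjection =
      U.starProjection * (1 - U'.starProjection) - (1 - U.starProjection) * U'.starProjection := by
    rw [mul_sub, sub_mul, mul_one, one_mul]
    abel
  rw [e3]
  calc ‖U.starProjection * (1 - U'.starProjection) - (1 - U.starProjection) * U'.starProjection‖
      ≤ ‖U.starProjection * (1 - U'.starProjection)‖ +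
        ‖(1 - U.starProjection) * U'.starProjection‖ := norm_sub_le _ _
    _ ≤ ‖Q - Q'‖ + ‖Q' - Q‖ := add_le_add a3 a2
    _ = 2 * ‖Q - Q'‖ := by rw [norm_sub_rev Q' Q]; ring

theorem Pi_norm_le {K : ℕ} (M : Set (E K)) (x : E K) : ‖Pi M x‖ ≤ 1 :=
  Submodule.starProjection_norm_le _

/-- near a point, `Pi` is Lipschitz and `der M f` is the product of a `C^1` function with `Pi` -/
theorem local_lip {N K : ℕ} {M : Set (E K)} {f : E K → E K} (hf : ContDiffOn ℝ 2 f M)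
    (c : Chart N K M) {x0 : E K} (hx0 : x0 ∈ M) (hW : x0 ∈ c.W) :
    ∃ L : ℝ≥0, ∃ t ∈ 𝓝[M] x0, LipschitzOnWith L (Pi M) t ∧ LipschitzOnWith L (der M f) t := by
  have hz0 : c.φ x0 ∈ c.V := c.mapsφ x0 ⟨hx0, hW⟩
  have hVn : c.V ∈ 𝓝 (c.φ x0) := c.openV.mem_nhds hz0
  have hWn : c.W ∈ 𝓝 x0 := c.openW.mem_nhds hW
  have cφ : ContDiffAt ℝ ∞ c.φ x0 := c.smoothφ.contDiffAt hWn
  have cψ : ContDiffAt ℝ ∞ c.ψ (c.φ x0) := c.smoothψ.contDiffAt hVn
  have cF : ContDiffAt ℝ 2 (f ∘ c.ψ) (c.φ x0) := by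
    have h1 : ContDiffOn ℝ 2 (f ∘ c.ψ) c.V :=
      hf.comp (c.smoothψ.of_le (by norm_cast)) fun z hz => (c.mapsψ z hz).1
    exact h1.contDiffAt hVn
  have dφ : ContDiffAt ℝ 1 (fderiv ℝ c.φ) x0 := cφ.fderiv_right (by norm_cast)
  have dψ : ContDiffAt ℝ 1 (fderiv ℝ c.ψ) (c.φ x0) := cψ.fderiv_right (by norm_cast)
  have dF : ContDiffAt ℝ 1 (fderiv ℝ (f ∘ c.ψ)) (c.φ x0) := cF.fderiv_right (by norm_num)
  have cφ1 : ContDiffAt ℝ 1 c.φ x0 := cφ.of_le (by simp)
  have hQ : ContDiffAt ℝ 1 (fun x => (fderiv ℝ c.ψ (c.φ x)).comp (fderiv ℝ c.φ x)) x0 :=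
    (dψ.comp x0 cφ1).clm_comp dφ
  have hG : ContDiffAt ℝ 1 (fun x => (fderiv ℝ (f ∘ c.ψ) (c.φ x)).comp (fderiv ℝ c.φ x)) x0 :=
    (dF.comp x0 cφ1).clm_comp dφ
  obtain ⟨L1, t1, ht1, hL1⟩ := hQ.exists_lipschitzOnWith
  obtain ⟨L2, t2, ht2, hL2⟩ := hG.exists_lipschitzOnWith
  set Q : E K → End K := fun x => (fderiv ℝ c.ψ (c.φ x)).comp (fderiv ℝ c.φ x) with hQd
  set G : E K → End K := fun x => (fderiv ℝ (f ∘ c.ψ) (c.φ x)).comp (fderiv ℝ c.φ x) with hGd
  have hb : ∀ᶠ x in 𝓝 x0, ‖G x‖ < ‖G x0‖ + 1 :=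
    hG.continuousAt.norm.eventually (gt_mem_nhds (lt_add_one _))
  have hT1 : ∀ x ∈ M ∩ c.W, Q x * Pi M x = Pi M x ∧ Pi M x * Q x = Q x := by
    intro x hx
    have h := Helper57.RZ.t1 N K M c (c.φ x) (c.mapsφ x hx)
    rw [c.right x hx] at h
    obtain ⟨_, h2, h3⟩ := h
    refine ⟨h3, ?_⟩
    have : (Pi M x) * Q x = ((Pi M x) ∘L (fderiv ℝ c.ψ (c.φ x))) ∘L (fderiv ℝ c.φ x) := rfl
    rw [this, h2]
  have hder : ∀ x ∈ M ∩ c.W, der M f x = G x * Pi M x := by
    intro x hx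
    have hzV : c.φ x ∈ c.V := c.mapsφ x hx
    have hzn : c.V ∈ 𝓝 (c.φ x) := c.openV.mem_nhds hzV
    have e1 : HasFDerivWithinAt f (fderivWithin ℝ f M x) M (c.ψ (c.φ x)) := by
      rw [c.right x hx]
      exact ((hf x hx.1).differentiableWithinAt (by norm_num)).hasFDerivWithinAt
    have e2 : HasFDerivWithinAt c.ψ (fderiv ℝ c.ψ (c.φ x)) c.V (c.φ x) :=
      ((c.smoothψ.contDiffAt hzn).differentiableAt (by simp)).hasFDerivAt.hasFDerivWithinAt
    have e3 := e1.comp (c.φ x) e2 (fun z hz => (c.mapsψ z hz).1)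
    have e4 := (e3.hasFDerivAt hzn).fderiv
    have e5 := (hT1 x hx).1
    have e6 : G x = fderivWithin ℝ f M x * Q x := by
      rw [hGd]
      dsimp only
      rw [e4]
      rfl
    rw [e6, mul_assoc, e5]
    rfl
  have hLt : ∀ x ∈ (M ∩ c.W) ∩ t1, ∀ y ∈ (M ∩ c.W) ∩ t1, ‖Pi M x - Pi M y‖ ≤ 2 * L1 * dist x y := by
    intro x hx y hy
    have h1 := hT1 x hx.1
    have h2 := hT1 y hy.1
    have h3 := proj_sub_le (tan M x) (tan M y) (Q x) (Q y) h1.1 h1.2 h2.1 h2.2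
    have h4 := hL1.dist_le_mul x hx.2 y hy.2
    rw [dist_eq_norm (Q x)] at h4
    calc ‖Pi M x - Pi M y‖ ≤ 2 * ‖Q x - Q y‖ := h3
      _ ≤ 2 * (L1 * dist x y) := by gcongr
      _ = 2 * L1 * dist x y := by ring
  refine ⟨L2 + (‖G x0‖₊ + 1) * (2 * L1), (M ∩ c.W) ∩ (t1 ∩ (t2 ∩ {x | ‖G x‖ < ‖G x0‖ + 1})), ?_, ?_, ?_⟩
  · rw [inter_assoc]
    refine inter_mem self_mem_nhdsWithin (mem_nhdsWithin_of_mem_nhds ?_)
    exact inter_mem hWn (inter_mem ht1 (inter_mem ht2 hb))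
  · refine LipschitzOnWith.of_dist_le_mul fun x hx y hy => ?_
    rw [dist_eq_norm]
    refine (hLt x ⟨hx.1, hx.2.1⟩ y ⟨hy.1, hy.2.1⟩).trans ?_
    refine mul_le_mul_of_nonneg_right ?_ dist_nonneg
    push_cast
    have h5 : (0 : ℝ) ≤ L1 := L1.2
    have h6 : (0 : ℝ) ≤ L2 := L2.2
    have h7 := norm_nonneg (G x0)
    nlinarith [mul_nonneg h7 h5]
  · refine LipschitzOnWith.of_dist_le_mul fun x hx y hy => ?_
    rw [dist_eq_norm, hder x hx.1, hder y hy.1]
    have e1 : G x * Pi M x - G y * Pi M y = (G x - G y) * Pi M x + G y * (Pi M x - Pi M y) := by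
      rw [sub_mul, mul_sub]
      abel
    have h4 := hL2.dist_le_mul x hx.2.2.1 y hy.2.2.1
    rw [dist_eq_norm (G x)] at h4
    have h8 : ‖G y‖ < ‖G x0‖ + 1 := hy.2.2.2
    have h9 := hLt x ⟨hx.1, hx.2.1⟩ y ⟨hy.1, hy.2.1⟩
    rw [e1]
    calc ‖(G x - G y) * Pi M x + G y * (Pi M x - Pi M y)‖
        ≤ ‖G x - G y‖ * ‖Pi M x‖ + ‖G y‖ * ‖Pi M x - Pi M y‖ :=
          (norm_add_le _ _).trans (add_le_add (norm_mul_le _ _) (norm_mul_le _ _))
      _ ≤ (L2 * dist x y) * 1 + (‖G x0‖ + 1) * (2 * L1 * dist x y) := by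
          refine add_le_add ?_ ?_
          · exact mul_le_mul h4 (Pi_norm_le M x) (norm_nonneg _) (by positivity)
          · exact mul_le_mul h8.le h9 (norm_nonneg _) (by positivity)
      _ = ↑(L2 + (‖G x0‖₊ + 1) * (2 * L1)) * dist x y := by
          push_cast
          ring

/-- **LZ** -/
theorem lz : StmtLZ := by
  intro N K M m f hM hf
  have h1 : LocallyLipschitzOn M (Pi M) := by
    intro x hx
    obtain ⟨c, hc, _⟩ := hM.chart x hx
    obtain ⟨L, t, ht, h, _⟩ := local_lip hf c hx hc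
    exact ⟨L, t, ht, h⟩
  have h2 : LocallyLipschitzOn M (der M f) := by
    intro x hx
    obtain ⟨c, hc, _⟩ := hM.chart x hx
    obtain ⟨L, t, ht, _, h⟩ := local_lip hf c hx hc
    exact ⟨L, t, ht, h⟩
  obtain ⟨L1, hL1⟩ := h1.exists_lipschitzOnWith_of_compact hM.compact
  obtain ⟨L2, hL2⟩ := h2.exists_lipschitzOnWith_of_compact hM.compact
  refine ⟨max L1 L2, by positivity, fun x hx y hy => ⟨?_, ?_⟩⟩
  · have := hL2.dist_le_mul x hx y hy
    rw [dist_eq_norm, dist_eq_norm] at this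
    exact this.trans (mul_le_mul_of_nonneg_right (le_max_right _ _) (norm_nonneg _))
  · have := hL1.dist_le_mul x hx y hy
    rw [dist_eq_norm, dist_eq_norm] at this
    exact this.trans (mul_le_mul_of_nonneg_right (le_max_left _ _) (norm_nonneg _))

end Pool.Agent.Helper49.RZ
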