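import Pool.Agent.Helper56.RZ.GoalsD

/-!
Project RZ, third theorem: packet SM (symmetry).
-/

set_option autoImplicit false

namespace Pool.Agent.Helper49.RZ

open Pool.Agent.Helper56.RZ

variable {K : ℕ}

theorem dtm (A B : End K) : dt (A * B) = dt A * dt B := by
  unfold dt
  rw [← LinearMap.det_comp]
  rfl

theorem dt_o : dt (1 : End K) = 1 := by
  unfold dt
  exact LinearMap.det_id

/-- conjugation -/
theorem dt_conj {D D' : End K} (h : D' * D = 1) (A : End K) : dt (D' * A * D) = dt A := by
  have h1 : dt D' * dt D = 1 := by rw [← dtm, h, dt_o]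
  rw [dtm, dtm, mul_comm (dt D'), mul_assoc, h1, mul_one]

theorem Ph_conj {D D' : End K} (h : D' * D = 1) (P P' : End K) :
    Ph P' (D * P * D') = Ph (D' * P' * D) P := by
  unfold Ph
  have h1 : D' * (P' * (D * P * D') * P' + 1 - P') * D =
      D' * P' * D * P * (D' * P' * D) + 1 - D' * P' * D := by
    have h2 : D' * (P' * (D * P * D') * P' + 1 - P') * D =
        D' * (P' * (D * P * D') * P') * D + D' * D - D' * P' * D := by
      rw [mul_sub, mul_add, mul_one, sub_mul, add_mul]
    rw [h2, h]
    simp only [mul_assoc]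
  rw [← h1, dt_conj h]

/-- the symmetry for two projections which are close to each other -/
theorem dt_sym {P Q V : End K} (hP : P * P = P) (hQ : Q * Q = Q)
    (hV : V = Q * P + (1 - Q) * (1 - P)) (hu : IsUnit V) :
    dt (P * Q * P + 1 - P) = dt (Q * P * Q + 1 - Q) := by
  have hVP : V * P = Q * P := by
    rw [hV, add_mul, mul_assoc Q P P, hP, mul_assoc (1 - Q), sub_mul 1 P P, one_mul, hP, sub_self,
      mul_zero, add_zero]
  have hQV : Q * V = Q * P := by
    rw [hV, mul_add, ← mul_assoc Q Q P, hQ, ← mul_assoc Q (1 - Q), mul_sub Q 1 Q, mul_one, hQ,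
      sub_self, zero_mul, add_zero]
  have hkey : V * (P * Q * P + 1 - P) = (Q * P * Q + 1 - Q) * V := by
    have h1 : V * (P * Q * P + 1 - P) = V * P * Q * P + V - V * P := by
      rw [mul_sub, mul_add, mul_one]
      simp only [mul_assoc]
    have h2 : (Q * P * Q + 1 - Q) * V = Q * P * (Q * V) + V - Q * V := by
      rw [sub_mul, add_mul, one_mul]
      simp only [mul_assoc]
    rw [h1, h2, hVP, hQV]
    simp only [mul_assoc]
  have h3 := congrArg dt hkey
  rw [dtm, dtm, mul_comm] at h3
  obtain ⟨u, hu⟩ := hu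
  have h4 : dt V ≠ 0 := by
    intro h0
    have h5 : dt (V * (↑u⁻¹ : End K)) = 1 := by
      rw [← hu, Units.mul_inv, dt_o]
    rw [dtm, h0, zero_mul] at h5
    exact zero_ne_one h5
  exact mul_right_cancel₀ h4 h3

theorem sm : StmtSM := by
  intro K R
  set M : ℝ := |R| + 1 with hM
  have hM1 : 1 ≤ M := by
    have := abs_nonneg R
    linarith
  refine ⟨1 / (100 * M ^ 2), by positivity, ?_⟩
  intro P P' D D' hP hP' hR hD'D hDD' hD hPP
  set δ : ℝ := 1 / (100 * M ^ 2) with hδ
  have hδ0 : 0 < δ := by positivity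
  have hδM : δ * M ≤ 1 / 100 := by
    rw [hδ]
    have h1 : 1 / (100 * M ^ 2) * M = 1 / (100 * M) := by
      field_simp
    rw [h1]
    apply one_div_le_one_div_of_le (by norm_num)
    linarith
  have hδ1 : δ ≤ 1 / 100 := by nlinarith
  have hone : ‖(1 : End K)‖ ≤ 1 := ContinuousLinearMap.norm_id_le
  have hD'n : ‖D'‖ ≤ 2 := by
    have h1 : D' = 1 - D' * (D - 1) := by
      rw [mul_sub, hD'D, mul_one]
      abel
    have h2 : ‖D'‖ ≤ 1 + ‖D'‖ * δ := by
      calc ‖D'‖ = ‖1 - D' * (D - 1)‖ := by rw [← h1]
        _ ≤ ‖(1 : End K)‖ + ‖D' * (D - 1)‖ := norm_sub_le _ _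
        _ ≤ 1 + ‖D'‖ * δ := by
          refine add_le_add hone ((norm_mul_le _ _).trans ?_)
          exact mul_le_mul_of_nonneg_left hD (norm_nonneg _)
    nlinarith [norm_nonneg D']
  have hRM : ∀ i, ‖P i‖ ≤ M := fun i => (hR i).trans ((le_abs_self R).trans (by linarith))
  have hkey : ∀ i, Ph (P' i) (D * P i * D') = Ph (P i) (D' * P' i * D) := by
    intro i
    rw [Ph_conj hD'D]
    unfold Ph
    have e1 : P i * P i = P i := by
      have := hP.proj i i
      rwa [if_pos rfl] at this
    have e2 : P' i * P' i = P' i := by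
      have := hP'.proj i i
      rwa [if_pos rfl] at this
    set Q : End K := D' * P' i * D with hQ
    have e3 : Q * Q = Q := by
      have h1 : Q * Q = D' * P' i * (D * D') * P' i * D := by
        rw [hQ]
        simp only [mul_assoc]
      rw [h1, hDD', mul_one, mul_assoc D', e2]
    have e4 : ‖Q - P i‖ ≤ 8 * (δ * M) := by
      have h1 : Q - P i = D' * (P' i * (D - 1) + (P' i - P i) - (D - 1) * P i) := by
        have h2 : D' * (P' i * (D - 1) + (P' i - P i) - (D - 1) * P i) =
            D' * P' i * D - (D' * D) * P i := by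
          simp only [mul_sub, sub_mul, mul_add, mul_one, one_mul, mul_assoc]
          abel
        rw [h2, hD'D, one_mul]
      have h3 : ‖P' i‖ ≤ M + δ := by
        have h4 : P' i = P i + (P' i - P i) := by abel
        rw [h4]
        exact (norm_add_le _ _).trans (add_le_add (hRM i) (hPP i))
      have h5 : ‖P' i * (D - 1) + (P' i - P i) - (D - 1) * P i‖ ≤ (M + δ) * δ + δ + δ * M := by
        refine (norm_sub_le _ _).trans (add_le_add ((norm_add_le _ _).trans
          (add_le_add ((norm_mul_le _ _).trans ?_) (hPP i))) ((norm_mul_le _ _).trans ?_))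
        · exact mul_le_mul h3 hD (norm_nonneg _) (by positivity)
        · exact mul_le_mul hD (hRM i) (norm_nonneg _) hδ0.le
      rw [h1]
      refine (norm_mul_le _ _).trans ((mul_le_mul hD'n h5 (norm_nonneg _) (by norm_num)).trans ?_)
      nlinarith
    have e5 : ‖Q‖ ≤ M + 1 := by
      have h4 : Q = P i + (Q - P i) := by abel
      rw [h4]
      refine (norm_add_le _ _).trans (add_le_add (hRM i) (e4.trans ?_))
      linarith
    set V : End K := Q * P i + (1 - Q) * (1 - P i) with hV
    have e6 : ‖1 - V‖ < 1 := by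
      have h1 : 1 - V = Q * (Q - P i) - (Q - P i) * P i := by
        have h2 : Q * (Q - P i) - (Q - P i) * P i = Q * Q + P i * P i - 2 • (Q * P i) := by
          simp only [mul_sub, sub_mul]
          abel
        rw [h2, e1, e3, hV]
        simp only [mul_sub, sub_mul, mul_one, one_mul]
        abel
      rw [h1]
      have h3 : ‖Q * (Q - P i) - (Q - P i) * P i‖ ≤ (M + 1) * (8 * (δ * M)) + 8 * (δ * M) * M := by
        refine (norm_sub_le _ _).trans (add_le_add ((norm_mul_le _ _).trans ?_)
          ((norm_mul_le _ _).trans ?_))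
        · exact mul_le_mul e5 e4 (norm_nonneg _) (by positivity)
        · exact mul_le_mul e4 (hRM i) (norm_nonneg _) (by positivity)
      refine lt_of_le_of_lt h3 ?_
      have h4 : δ * M ^ 2 = 1 / 100 := by
        rw [hδ]
        field_simp
      nlinarith
    have hu : IsUnit V := by
      have h1 : V = 1 - (1 - V) := by abel
      rw [h1]
      exact isUnit_one_sub_of_norm_lt_one e6
    have h7 := dt_sym e1 e3 hV hu
    rw [h7]
  unfold Ps
  rw [hkey 0, hkey 2]

end Pool.Agent.Helper49.RZ
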